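import Mathlib

namespace Pool.Agent.Results.MP_966169_pr.Both

open MeasureTheory Set Real Filter Topology

/-- the ratio `R(z)`. -/
noncomputable def R (μ : Measure ℝ) (z : ℝ) : ℝ :=
  (μ.prod μ).real {p | 2 * z ≤ p.1 + p.2 ∧ min p.1 p.2 ≤ z} /
    (μ.prod μ).real {p | 2 * z ≤ p.1 + p.2 ∧ z ≤ min p.1 p.2}

/-- absolutely continuous laws on `[0, ∞)` that are not compactly supported. -/
def Adm (μ : Measure ℝ) : Prop :=
  IsProbabilityMeasure μ ∧ μ (Iio 0) = 0 ∧ μ ≪ volume ∧ ∀ t, 0 < μ (Ioi t)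

lemma den (μ : Measure ℝ) [SFinite μ] (z : ℝ) :
    (μ.prod μ).real {p | 2 * z ≤ p.1 + p.2 ∧ z ≤ min p.1 p.2} = μ.real (Ici z) ^ 2 := by
  rw [sq, ← measureReal_prod_prod]
  congr 1; ext p
  simp only [mem_setOf_eq, le_min_iff, mem_prod, mem_Ici]
  exact ⟨fun h => h.2, fun h => ⟨by linarith [h.1, h.2], h⟩⟩

lemma Spos {μ : Measure ℝ} (h : Adm μ) (t : ℝ) : 0 < μ.real (Ici t) := by
  haveI := h.1
  exact ENNReal.toReal_pos ((h.2.2.2 t).trans_le (measure_mono Ioi_subset_Ici_self)).ne'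
    (measure_ne_top _ _)

lemma lower {μ : Measure ℝ} (h : Adm μ) {m : ℝ} (hm : 0 < m) (hS : μ.real (Ici m) ≤ 1 / 2) :
    ∃ z > 0, 1 / 12 * z / m ≤ R μ z := by
  haveI := h.1
  by_contra hc
  push Not at hc
  have an : ∀ a b, a ≤ b → μ.real (Ici b) ≤ μ.real (Ici a) := fun a b hab =>
    measureReal_mono (Ici_subset_Ici.2 hab)
  have key : ∀ k : ℕ, ∃ a b, 0 < b ∧ a ≤ b ∧ b + 2 * (b - a) ≤ 3 * m ∧
      2 * μ.real (Ici b) ≤ μ.real (Ici a) ∧ μ.real (Ici b) ≤ (1 / 2) ^ k := by
    intro k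
    induction k with
    | zero =>
      have := measureReal_add_measureReal_compl (μ := μ) (measurableSet_Ici (a := (0 : ℝ)))
      rw [compl_Ici, probReal_univ, show μ.real (Iio 0) = 0 by simp [Measure.real, h.2.1]] at this
      exact ⟨0, m, hm, hm.le, by linarith, by linarith, by linarith⟩
    | succ k ih =>
      obtain ⟨a, b, h0, hab, h1, h2, h3⟩ := ih
      have p := Spos h b
      have e1 : μ.real (Ici a) ≤ μ.real (Icc a b) + μ.real (Ici b) :=
        (measureReal_mono Ici_subset_Icc_union_Ici).trans (measureReal_union_le _ _)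
      have e2 : μ.real (Icc a b) * μ.real (Ici (2 * b - a)) ≤
          (μ.prod μ).real {p | 2 * b ≤ p.1 + p.2 ∧ min p.1 p.2 ≤ b} := by
        rw [← measureReal_prod_prod]
        exact measureReal_mono fun p hp =>
          ⟨by linarith [hp.1.1, mem_Ici.1 hp.2], (min_le_left _ _).trans hp.1.2⟩
      have e3 : R μ b < 1 / 4 := (hc b h0).trans_le (by rw [div_le_iff₀ hm]; linarith)
      rw [R, den, div_lt_iff₀ (by positivity)] at e3
      have e4 : 4 * μ.real (Ici (2 * b - a)) < μ.real (Ici b) := by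
        have := Spos h (2 * b - a)
        nlinarith
      rw [pow_succ]
      by_cases hh : 2 * μ.real (Ici (b + (b - a) / 2)) ≤ μ.real (Ici b)
      · exact ⟨b, b + (b - a) / 2, by linarith, by linarith, by linarith, hh, by linarith⟩
      · exact ⟨b + (b - a) / 2, 2 * b - a, by linarith, by linarith, by linarith, by linarith,
          by linarith [Spos h (2 * b - a)]⟩
  obtain ⟨k, hk⟩ := exists_pow_lt_of_lt_one (Spos h (3 * m)) (by norm_num : (1 / 2 : ℝ) < 1)
  obtain ⟨a, b, -, h1, h2, -, h3⟩ := key k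
  linarith [an b (3 * m) (by linarith)]

noncomputable def S (x : ℝ) : ℝ := exp (-(x + x ^ 2 / 100))
noncomputable def f (x : ℝ) : ℝ := (1 + x / 50) * S x
noncomputable def μ0 : Measure ℝ :=
  (volume.restrict (Ioi 0)).withDensity fun x => ENNReal.ofReal (f x)

lemma fc : Continuous f := by unfold f S; fun_prop
lemma f0 {x : ℝ} (h : 0 ≤ x) : 0 ≤ f x := by unfold f S; positivity

lemma tail {t : ℝ} (ht : 0 ≤ t) : μ0 (Ioi t) = ENNReal.ofReal (S t) := by
  have hd : ∀ x ∈ Ici t, HasDerivAt (fun x => -S x) (f x) x := fun x _ => by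
    unfold f S
    exact (((hasDerivAt_id x).add ((hasDerivAt_pow 2 x).div_const 100)).neg.exp).neg.congr_deriv
      (by simp; ring)
  have hl : Tendsto (fun x => -S x) atTop (𝓝 0) := by
    rw [← neg_zero]
    exact (tendsto_exp_neg_atTop_nhds_zero.comp (tendsto_atTop_mono
      (fun x => le_add_of_nonneg_right (by positivity)) tendsto_id)).neg
  have hp : ∀ x ∈ Ioi t, 0 ≤ f x := fun x hx => f0 (ht.trans (le_of_lt hx))
  rw [μ0, withDensity_apply _ measurableSet_Ioi, Measure.restrict_restrict measurableSet_Ioi,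
    Ioi_inter_Ioi, sup_eq_left.2 ht, ← ofReal_integral_eq_lintegral_ofReal
      (integrableOn_Ioi_deriv_of_nonneg' hd hp hl) (ae_restrict_of_forall_mem measurableSet_Ioi hp),
    integral_Ioi_of_hasDerivAt_of_nonneg' hd hp hl]
  simp

lemma ac : μ0 ≪ volume :=
  (withDensity_absolutelyContinuous _ _).trans Measure.absolutelyContinuous_restrict

lemma neg0 : μ0 (Iic 0) = 0 := by
  rw [μ0, withDensity_apply _ measurableSet_Iic, Measure.restrict_restrict measurableSet_Iic,
    Iic_inter_Ioi]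
  simp

instance : IsProbabilityMeasure μ0 := ⟨by
  rw [← measure_add_measure_compl (measurableSet_Iic (a := (0 : ℝ))), neg0, compl_Iic, tail le_rfl]
  simp [S]⟩

lemma tail' {t : ℝ} (ht : 0 ≤ t) : μ0 (Ici t) = ENNReal.ofReal (S t) := by
  rw [← tail ht]; exact measure_congr (ac.ae_eq Ioi_ae_eq_Ici.symm)

lemma adm : Adm μ0 := ⟨inferInstance, measure_mono_null Iio_subset_Iic_self neg0, ac, fun t =>
  lt_of_lt_of_le (by rw [tail (le_max_right t 0)]; simp [S, exp_pos])
    (measure_mono (Ioi_subset_Ioi (le_max_left t 0)))⟩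

lemma expb {y : ℝ} (h : 0 ≤ y) : exp (-y) ≤ 1 - y + y ^ 2 / 2 := by
  rw [exp_neg, inv_le_iff_one_le_mul₀ (exp_pos _)]
  have := quadratic_le_exp_of_nonneg h
  have : 0 < 1 - y + y ^ 2 / 2 := by nlinarith [sq_nonneg (y - 1)]
  nlinarith [sq_nonneg (y ^ 2)]

lemma Ib {z : ℝ} (hz : 0 < z) :
    ∫ x in (0)..z, (1 + x / 50) * exp (-((z - x) ^ 2 / 50)) < 1.006 * z := by
  rcases le_total z 7.2 with h | h
  · refine (intervalIntegral.integral_mono_on hz.le (g := fun x => x / 50 +
      (1 - (z - x) ^ 2 / 50 + ((z - x) ^ 2 / 50) ^ 2 / 2)) (Continuous.intervalIntegrable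
      (by fun_prop) _ _) (Continuous.intervalIntegrable (by fun_prop) _ _) fun x hx => ?_).trans_lt ?_
    · have a := expb (y := (z - x) ^ 2 / 50) (by positivity)
      have b : exp (-((z - x) ^ 2 / 50)) ≤ 1 := exp_le_one_iff.2 (neg_nonpos.2 (by positivity))
      nlinarith [hx.1]
    · rw [intervalIntegral.integral_eq_sub_of_hasDerivAt (f := fun x => x ^ 2 / 100 + x +
        (z - x) ^ 3 / 150 - (z - x) ^ 5 / 25000) (fun x _ => ?_)
        (Continuous.intervalIntegrable (by fun_prop) _ _)]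
      · have : z ^ 2 ≤ 51.84 := by nlinarith
        have : z ^ 5 ≤ 51.84 * z ^ 3 := by nlinarith [pow_pos hz 3]
        nlinarith [mul_nonneg hz.le (sq_nonneg (z - 1.09))]
      · have d := (hasDerivAt_id x).const_sub z
        exact (((((hasDerivAt_pow 2 x).div_const 100).add (hasDerivAt_id x)).add
          ((d.pow 3).div_const 150)).sub ((d.pow 5).div_const 25000)).congr_deriv (by simp; ring)
  · refine (intervalIntegral.integral_mono_on hz.le (g := fun x => (1 + z / 50) *
      exp (-(1 / 50) * (z - x) ^ 2)) (Continuous.intervalIntegrable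
      (by fun_prop) _ _) (Continuous.intervalIntegrable (by fun_prop) _ _) fun x hx => ?_).trans_lt ?_
    · rw [show -((z - x) ^ 2 / 50) = -(1 / 50) * (z - x) ^ 2 by ring]
      gcongr; exact hx.2
    · rw [intervalIntegral.integral_const_mul,
        intervalIntegral.integral_comp_sub_left (fun u => exp (-(1 / 50) * u ^ 2)), sub_self,
        sub_zero, intervalIntegral.integral_of_le hz.le]
      have a := setIntegral_mono_set (μ := volume) (s := Ioc 0 z) (t := Ioi 0)
        (integrable_exp_neg_mul_sq (b := 1 / 50) (by norm_num)).integrableOn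
        (ae_of_all _ fun x => (exp_pos _).le) Ioc_subset_Ioi_self.eventuallyLE
      rw [integral_gaussian_Ioi] at a
      have b : √(π / (1 / 50)) ≤ 12.54 := sqrt_le_iff.2 ⟨by norm_num, by linarith [pi_lt_d4]⟩
      nlinarith

lemma Rb {z : ℝ} (hz : 0 < z) : R μ0 z < 2 * (1.006 * z) := by
  have hA : MeasurableSet {p : ℝ × ℝ | p.1 ≤ z ∧ 2 * z ≤ p.1 + p.2} := by measurability
  have e : (μ0.prod μ0) {p | p.1 ≤ z ∧ 2 * z ≤ p.1 + p.2} =
      ENNReal.ofReal (∫ x in (0)..z, f x * S (2 * z - x)) := by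
    rw [Measure.prod_apply hA, intervalIntegral.integral_of_le hz.le,
      ofReal_integral_eq_lintegral_ofReal
        ((by unfold f S; fun_prop : Continuous fun x => f x * S (2 * z - x)).integrableOn_Icc.mono_set
          Ioc_subset_Icc_self) (ae_restrict_of_forall_mem measurableSet_Ioc fun x hx =>
            mul_nonneg (f0 hx.1.le) (exp_pos _).le)]
    conv_lhs => rw [μ0, lintegral_withDensity_eq_lintegral_mul _ (by have := fc; fun_prop)
      (measurable_measure_prodMk_left hA)]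
    rw [← lintegral_indicator measurableSet_Ioi, ← lintegral_indicator measurableSet_Ioc]
    congr 1; ext x
    by_cases h0 : 0 < x
    · rw [indicator_of_mem (mem_Ioi.2 h0), Pi.mul_apply]
      by_cases h1 : x ≤ z
      · rw [indicator_of_mem (mem_Ioc.2 ⟨h0, h1⟩), ENNReal.ofReal_mul (f0 h0.le),
          ← tail' (by linarith)]
        congr 2; ext y; simp [h1, add_comm]
      · rw [indicator_of_notMem (fun h => h1 h.2)]
        simp [h1]
    · rw [indicator_of_notMem (show x ∉ Ioi 0 from h0), indicator_of_notMem (fun h => h0 h.1)]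
  have e2 : ∫ x in (0)..z, f x * S (2 * z - x) =
      (∫ x in (0)..z, (1 + x / 50) * exp (-((z - x) ^ 2 / 50))) * S z ^ 2 := by
    rw [← intervalIntegral.integral_mul_const]
    congr 1; ext x
    simp only [f, S, sq (exp _), mul_assoc, ← exp_add]; congr 2; ring
  have sp : 0 < S z := exp_pos _
  have e3 : (μ0.prod μ0).real {p | p.1 ≤ z ∧ 2 * z ≤ p.1 + p.2} < 1.006 * z * S z ^ 2 := by
    rw [Measure.real, e, e2, ← ENNReal.ofReal_lt_ofReal_iff (by positivity), ENNReal.ofReal_toReal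
      ENNReal.ofReal_ne_top, ENNReal.ofReal_lt_ofReal_iff (by positivity)]
    gcongr; exact Ib hz
  have e4 : (μ0.prod μ0).real (Prod.swap ⁻¹' {p | p.1 ≤ z ∧ 2 * z ≤ p.1 + p.2}) =
      (μ0.prod μ0).real {p | p.1 ≤ z ∧ 2 * z ≤ p.1 + p.2} :=
    Measure.measurePreserving_swap.measureReal_preimage hA.nullMeasurableSet
  have e5 := (measureReal_mono (μ := μ0.prod μ0) (fun p hp => ?_ :
    {p : ℝ × ℝ | 2 * z ≤ p.1 + p.2 ∧ min p.1 p.2 ≤ z} ⊆ {p | p.1 ≤ z ∧ 2 * z ≤ p.1 + p.2} ∪
    Prod.swap ⁻¹' {p | p.1 ≤ z ∧ 2 * z ≤ p.1 + p.2})).trans (measureReal_union_le _ _)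
  · rw [R, den, measureReal_def μ0, tail' hz.le, ENNReal.toReal_ofReal sp.le,
      div_lt_iff₀ (by positivity)]
    linarith
  · rcases min_le_iff.1 hp.2 with h | h
    · exact Or.inl ⟨h, hp.1⟩
    · exact Or.inr ⟨h, by simpa [add_comm] using hp.1⟩

lemma Gn (n : ℕ) : IntegrableOn (fun x => exp (-x) * x ^ n) (Ioi 0) ∧
    ∫ x in Ioi (0 : ℝ), exp (-x) * x ^ n = n.factorial := by
  have h : (0 : ℝ) < n + 1 := by positivity
  exact ⟨by simpa using GammaIntegral_convergent h,
    by simpa [Gamma_nat_eq_factorial] using (Gamma_eq_integral h).symm⟩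

lemma mean : Integrable id μ0 ∧ ∫ x, x ∂μ0 ≤ 0.99 := by
  let g := fun x : ℝ => exp (-x) * x ^ 1 + 1 / 50 * (exp (-x) * x ^ 2) - 1 / 100 * (exp (-x) * x ^ 3)
    - 1 / 5000 * (exp (-x) * x ^ 4) + 1 / 20000 * (exp (-x) * x ^ 5) + 1 / 1000000 * (exp (-x) * x ^ 6)
  have G := fun n => (Gn n).1
  have gi : IntegrableOn g (Ioi 0) := (((((G 1).add ((G 2).const_mul _)).sub ((G 3).const_mul _)).sub
    ((G 4).const_mul _)).add ((G 5).const_mul _)).add ((G 6).const_mul _)
  have gv : ∫ x in Ioi 0, g x ≤ 0.99 := by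
    unfold IntegrableOn at G
    simp only [g]
    rw [integral_add, integral_add, integral_sub, integral_sub, integral_add]
    any_goals fun_prop
    simp only [integral_const_mul, (Gn _).2]; norm_num [Nat.factorial]
  have hb : ∀ x ∈ Ioi (0 : ℝ), f x * x ≤ g x := fun x hx => by
    have hx : 0 < x := hx
    have : f x * x = exp (-x) * ((1 + x / 50) * x) * exp (-(x ^ 2 / 100)) := by
      simp only [f, S, neg_add, exp_add]; ring
    rw [this]
    refine (mul_le_mul_of_nonneg_left (expb (by positivity)) (by positivity)).trans_eq ?_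
    simp only [g]; ring
  have hi : IntegrableOn (fun x => f x * x) (Ioi 0) :=
    gi.mono' (by have := fc; fun_prop) (ae_restrict_of_forall_mem measurableSet_Ioi fun x hx => by
      rw [norm_of_nonneg (mul_nonneg (f0 (le_of_lt hx)) (le_of_lt hx))]; exact hb x hx)
  have hm : Measurable fun x => ENNReal.ofReal (f x) := by have := fc; fun_prop
  have ee : ∀ x ∈ Ioi (0 : ℝ), (ENNReal.ofReal (f x)).toReal • x = f x * x := fun x hx => by
    rw [ENNReal.toReal_ofReal (f0 (le_of_lt hx)), smul_eq_mul]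
  refine ⟨(integrable_withDensity_iff_integrable_smul' hm (by simp)).2
    (hi.congr_fun (fun x hx => (ee x hx).symm) measurableSet_Ioi), ?_⟩
  rw [μ0, integral_withDensity_eq_integral_toReal_smul hm (by simp),
    setIntegral_congr_fun measurableSet_Ioi ee]
  exact (setIntegral_mono_on hi gi measurableSet_Ioi hb).trans gv

lemma mpos {μ : Measure ℝ} (h : Adm μ) (hi : Integrable id μ) :
    0 < ∫ x, x ∂μ ∧ μ.real (Ici (2 * ∫ x, x ∂μ)) ≤ 1 / 2 := by
  haveI := h.1
  have h0 : 0 ≤ᵐ[μ] id := by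
    simp only [EventuallyLE, ae_iff, Pi.zero_apply, id, not_le]; exact h.2.1
  have a := mul_meas_ge_le_integral_of_nonneg h0 hi
  have p : 0 < ∫ x, x ∂μ := lt_of_lt_of_le (mul_pos one_pos (Spos h 1)) (a 1)
  have b : 2 * (∫ x, x ∂μ) * μ.real (Ici (2 * ∫ x, x ∂μ)) ≤ ∫ x, x ∂μ := a _
  exact ⟨p, by nlinarith⟩

lemma med {μ : Measure ℝ} (h : Adm μ) {m : ℝ} (hm : μ.real (Iic m) = 1 / 2) :
    0 < m ∧ μ.real (Ici m) = 1 / 2 := by
  haveI := h.1
  have := measureReal_add_measureReal_compl (μ := μ) (measurableSet_Iic (a := m))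
  rw [compl_Iic, probReal_univ, measureReal_congr (h.2.2.1.ae_eq Ioi_ae_eq_Ici)] at this
  refine ⟨not_le.1 fun hh => ?_, by linarith⟩
  have : μ.real (Iic m) ≤ μ.real (Iic 0) := measureReal_mono (Iic_subset_Iic.2 hh)
  rw [← measureReal_congr (h.2.2.1.ae_eq (Iio_ae_eq_Iic (a := (0 : ℝ)))),
    show μ.real (Iio 0) = 0 by simp [Measure.real, h.2.1]] at this
  linarith

theorem result :
    (∃ μ, Adm μ ∧ Integrable id μ ∧ (∃ m, μ.real (Iic m) = 1 / 2) ∧
      (∀ m, μ.real (Iic m) = 1 / 2 → ∀ z > 0, R μ z < 2 * log 2 * z / m) ∧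
      ∀ z > 0, R μ z < 2 * z / ∫ x, x ∂μ) ∧
    (∀ μ, Adm μ → ∀ m, μ.real (Iic m) = 1 / 2 → ∃ z > 0, 1 / 12 * z / m ≤ R μ z) ∧
    ∀ μ, Adm μ → Integrable id μ → ∃ z > 0, 1 / 24 * z / ∫ x, x ∂μ ≤ R μ z := by
  refine ⟨⟨μ0, adm, mean.1, ?_, fun m hm z hz => (Rb hz).trans_le ?_,
    fun z hz => (Rb hz).trans_le ?_⟩, fun μ h m hm => lower h (med h hm).1 (med h hm).2.le,
    fun μ h hi => ?_⟩
  · obtain ⟨m, hm, e⟩ := intermediate_value_Icc (zero_le_one' ℝ)
      (by fun_prop : Continuous fun x : ℝ => x + x ^ 2 / 100).continuousOn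
      (show log 2 ∈ _ from ⟨by simpa using log_nonneg one_le_two, by linarith [log_two_lt_d9]⟩)
    have := measureReal_add_measureReal_compl (μ := μ0) (measurableSet_Iic (a := m))
    rw [compl_Iic, probReal_univ, measureReal_def μ0 (Ioi m), tail hm.1, S, show m + _ = _ from e,
      ENNReal.toReal_ofReal (exp_pos _).le, exp_neg, exp_log two_pos] at this
    exact ⟨m, by linarith⟩
  · obtain ⟨p, e⟩ := med adm hm
    rw [Measure.real, tail' p.le, S, ENNReal.toReal_ofReal (exp_pos _).le] at e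
    have := congrArg log e
    rw [log_exp, one_div, log_inv, neg_inj] at this
    have h6 : 0.6 ≤ m := by by_contra hh; nlinarith [log_two_gt_d9]
    rw [le_div_iff₀ p, ← this]; nlinarith [mul_nonneg (mul_pos hz p).le (sub_nonneg.2 h6)]
  · rw [le_div_iff₀ (mpos adm mean.1).1]; nlinarith [mean.2]
  · obtain ⟨z, hz, e⟩ := lower h (by linarith [(mpos h hi).1]) (mpos h hi).2
    exact ⟨z, hz, by convert e using 1; field_simp; norm_num⟩

end Pool.Agent.Results.MP_966169_pr.Both
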